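import Pool.Agent.W544.PG.Defs

/-!
# Dimension bounds
-/

set_option autoImplicit false

open Matrix Module Pool.Agent.W544.PG

namespace Pool.Agent.W417.PG

theorem dim : S_dim := by
  intro p q G hker
  constructor
  · let f : G.h0 →ₗ[ℂ] Matrix (Fin p) (Fin p) ℂ :=
      (LinearMap.fst ℂ (Matrix (Fin p) (Fin p) ℂ) (Matrix (Fin q) (Fin q) ℂ)).comp G.h0.subtype
    have h1 := f.finrank_range_add_finrank_ker
    have h2 : finrank ℂ (LinearMap.range f) ≤ p ^ 2 := by
      refine (Submodule.finrank_le _).trans (le_of_eq ?_)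
      rw [Module.finrank_matrix, Module.finrank_self, Fintype.card_fin]
      ring
    have h3 : finrank ℂ (LinearMap.ker f) ≤ finrank ℂ G.kk := by
      let g : LinearMap.ker f →ₗ[ℂ] G.kk :=
        { toFun := fun X => ⟨X.1.1.2, by
            have hX : X.1.1.1 = 0 := X.2
            show ((0, X.1.1.2) : Matrix (Fin p) (Fin p) ℂ × Matrix (Fin q) (Fin q) ℂ) ∈ G.h0
            have h4 : ((0, X.1.1.2) : Matrix (Fin p) (Fin p) ℂ × Matrix (Fin q) (Fin q) ℂ) =
                X.1.1 := Prod.ext hX.symm rfl
            rw [h4]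
            exact X.1.2⟩
          map_add' := fun X Y => rfl
          map_smul' := fun c X => rfl }
      refine LinearMap.finrank_le_finrank_of_injective (f := g) ?_
      intro X Y hXY
      have h5 : X.1.1.2 = Y.1.1.2 := congrArg Subtype.val hXY
      have h6 : X.1.1.1 = 0 := X.2
      have h7 : Y.1.1.1 = 0 := Y.2
      exact Subtype.ext (Subtype.ext (Prod.ext (h6.trans h7.symm) h5))
    omega
  · let Φ : (Fin q → ℂ) →ₗ[ℂ] (G.h1 →ₗ[ℂ] (Fin p → ℂ)) :=
      { toFun := fun u =>
          { toFun := fun F => F.1 *ᵥ u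
            map_add' := fun F F' => Matrix.add_mulVec _ _ _
            map_smul' := fun c F => Matrix.smul_mulVec _ _ _ }
        map_add' := fun u v => LinearMap.ext fun F => Matrix.mulVec_add F.1 u v
        map_smul' := fun c u => LinearMap.ext fun F => Matrix.mulVec_smul F.1 c u }
    have h1 : Function.Injective Φ := by
      rw [injective_iff_map_eq_zero]
      intro u hu
      refine hker u fun F hF => ?_
      exact congrArg (fun φ : G.h1 →ₗ[ℂ] (Fin p → ℂ) => φ ⟨F, hF⟩) hu
    have h2 := LinearMap.finrank_le_finrank_of_injective h1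
    rw [Module.finrank_linearMap] at h2
    simp only [Module.finrank_fin_fun] at h2
    rw [mul_comm]
    exact h2

end Pool.Agent.W417.PG
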