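import Pool.Agent.W544.PG.Defs

/-!
# The commutant of the operators of degree one
-/

set_option autoImplicit false

open Matrix Module Pool.Agent.W544.PG

namespace Pool.Agent.W417.PG

variable {p q : ℕ}

theorem big0_star (X : Matrix (Fin p) (Fin p) ℂ × Matrix (Fin q) (Fin q) ℂ) :
    (big0 X)ᴴ = big0 (X.1ᴴ, X.2ᴴ) := by
  ext (i | i | i) (j | j | j) <;> simp [big0, Matrix.conjTranspose_apply]

theorem br01 (X : Matrix (Fin p) (Fin p) ℂ × Matrix (Fin q) (Fin q) ℂ) (hX : X.2ᵀ = -X.2)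
    (F : Matrix (Fin p) (Fin q) ℂ) :
    big0 X * big1 F - big1 F * big0 X = big1 (X.1 * F - F * X.2) := by
  have h : (X.1 * F - F * X.2)ᵀ = Fᵀ * X.1ᵀ + X.2 * Fᵀ := by
    rw [Matrix.transpose_sub, Matrix.transpose_mul, Matrix.transpose_mul, hX]
    rw [Matrix.neg_mul, sub_neg_eq_add]
  unfold big0 big1
  rw [h]
  ext (i | i | i) (j | j | j) <;>
    simp [Matrix.mul_apply, Fintype.sum_sum_type, Matrix.transpose_apply]
  ring

theorem br21 (Y : Matrix (Fin p) (Fin p) ℂ) (F : Matrix (Fin p) (Fin q) ℂ) :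
    big2 Y * big1 F = (0 : Matrix (I p q) (I p q) ℂ) ∧
      big1 F * big2 Y = (0 : Matrix (I p q) (I p q) ℂ) := by
  constructor <;> (ext (i | i | i) (j | j | j) <;>
    simp [big1, big2, Matrix.mul_apply, Fintype.sum_sum_type])

theorem br21s (Y : Matrix (Fin p) (Fin p) ℂ) (hY : Yᵀ = -Y) (F : Matrix (Fin p) (Fin q) ℂ) :
    big2 Y * (big1 F)ᴴ - (big1 F)ᴴ * big2 Y = -big1 (Y * (Fᴴ)ᵀ) := by
  have h : (Y * (Fᴴ)ᵀ)ᵀ = -(Fᴴ * Y) := by
    rw [Matrix.transpose_mul, hY, Matrix.transpose_transpose, Matrix.mul_neg]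
  unfold big1 big2
  rw [h]
  ext (i | i | i) (j | j | j) <;>
    simp [Matrix.mul_apply, Fintype.sum_sum_type, Matrix.transpose_apply,
      Matrix.conjTranspose_apply]

theorem B0_sq : B0 p q * B0 p q = 1 := by
  ext (i | i | i) (j | j | j) <;>
    simp [B0, Matrix.mul_apply, Fintype.sum_sum_type, Matrix.one_apply]

theorem B0_star : (B0 p q)ᴴ = B0 p q := by
  ext (i | i | i) (j | j | j) <;>
    simp [B0, Matrix.conjTranspose_apply, Matrix.one_apply, eq_comm]

theorem B0_one (F : Matrix (Fin p) (Fin q) ℂ) :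
    (big1 F)ᵀ * B0 p q = -(B0 p q * big1 F) := by
  ext (i | i | i) (j | j | j) <;>
    simp [B0, big1, Matrix.mul_apply, Fintype.sum_sum_type, Matrix.transpose_apply,
      Matrix.one_apply]

theorem B0_ops (G : Gr p q) : ∀ E ∈ G.ops1, Eᵀ * B0 p q = -(B0 p q * E) ∧
    B0 p q * Eᵀ = -(E * B0 p q) := by
  have h1 : ∀ E : Matrix (I p q) (I p q) ℂ, Eᵀ * B0 p q = -(B0 p q * E) →
      B0 p q * Eᵀ = -(E * B0 p q) := by
    intro E hE
    have h2 : B0 p q * (Eᵀ * B0 p q) * B0 p q = B0 p q * (-(B0 p q * E)) * B0 p q := by rw [hE]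
    rw [Matrix.mul_assoc, Matrix.mul_assoc, B0_sq, Matrix.mul_one, Matrix.mul_neg,
      ← Matrix.mul_assoc (B0 p q) (B0 p q), B0_sq, Matrix.one_mul, Matrix.neg_mul] at h2
    exact h2
  have h3 : ∀ E : Matrix (I p q) (I p q) ℂ, B0 p q * Eᵀ = -(E * B0 p q) →
      Eᵀ * B0 p q = -(B0 p q * E) := by
    intro E hE
    have h2 : B0 p q * (B0 p q * Eᵀ) * B0 p q = B0 p q * (-(E * B0 p q)) * B0 p q := by rw [hE]
    rw [← Matrix.mul_assoc (B0 p q) (B0 p q), B0_sq, Matrix.one_mul, Matrix.mul_neg,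
      Matrix.neg_mul, Matrix.mul_assoc (B0 p q), Matrix.mul_assoc E, B0_sq, Matrix.mul_one] at h2
    exact h2
  rintro E ⟨F, hF, rfl | rfl⟩
  · exact ⟨B0_one F, h1 _ (B0_one F)⟩
  · have h4 : B0 p q * ((big1 F)ᴴ)ᵀ = -((big1 F)ᴴ * B0 p q) := by
      have h5 := congrArg Matrix.conjTranspose (B0_one F)
      rw [Matrix.conjTranspose_mul, Matrix.conjTranspose_neg, Matrix.conjTranspose_mul,
        B0_star] at h5
      have h6 : ((big1 F)ᵀ)ᴴ = ((big1 F)ᴴ)ᵀ := by
        ext i j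
        rfl
      rw [h6] at h5
      exact h5
    exact ⟨h3 _ h4, h4⟩

theorem ops1_star (G : Gr p q) : ∀ E ∈ G.ops1, Eᴴ ∈ G.ops1 := by
  rintro E ⟨F, hF, rfl | rfl⟩
  · exact ⟨F, hF, Or.inr rfl⟩
  · exact ⟨F, hF, Or.inl (Matrix.conjTranspose_conjTranspose _)⟩

theorem com_star (G : Gr p q) : IsStar (com G.ops1) := by
  refine ⟨?_, ?_, ?_⟩
  · intro E _
    rw [Matrix.one_mul, Matrix.mul_one]
  · intro a ha b hb E hE
    rw [Matrix.mul_assoc, hb E hE, ← Matrix.mul_assoc, ha E hE, Matrix.mul_assoc]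
  · intro a ha E hE
    have h1 := congrArg Matrix.conjTranspose (ha _ (ops1_star G E hE))
    rw [Matrix.conjTranspose_mul, Matrix.conjTranspose_mul,
      Matrix.conjTranspose_conjTranspose] at h1
    exact h1.symm

theorem jac {y s E : Matrix (I p q) (I p q) ℂ} (h1 : s * E = E * s)
    (h2 : s * (y * E - E * y) = (y * E - E * y) * s) :
    (y * s - s * y) * E = E * (y * s - s * y) := by
  have h3 : (y * s - s * y) * E - E * (y * s - s * y) =
      (y * E - E * y) * s - s * (y * E - E * y) + (y * (s * E - E * s) - (s * E - E * s) * y) := by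
    noncomm_ring
  rw [h1, sub_self, Matrix.mul_zero, Matrix.zero_mul, sub_zero, add_zero, h2, sub_self] at h3
  exact sub_eq_zero.1 h3

theorem com_ops (G : Gr p q) : ∀ y ∈ G.ops, ∀ s ∈ com G.ops1, y * s - s * y ∈ com G.ops1 := by
  have hb1 : ∀ F ∈ G.h1, big1 F ∈ G.ops1 := fun F hF => ⟨F, hF, Or.inl rfl⟩
  have hb1s : ∀ F ∈ G.h1, (big1 F)ᴴ ∈ G.ops1 := fun F hF => ⟨F, hF, Or.inr rfl⟩
  have h2 : ∀ Y ∈ G.h2, ∀ s ∈ com G.ops1, big2 Y * s - s * big2 Y ∈ com G.ops1 := by
    intro Y hY s hs E hE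
    refine jac (hs E hE) ?_
    obtain ⟨F, hF, rfl | rfl⟩ := hE
    · rw [(br21 Y F).1, (br21 Y F).2, sub_self, Matrix.mul_zero, Matrix.zero_mul]
    · rw [br21s Y (G.skew2 Y hY) F, Matrix.mul_neg, Matrix.neg_mul,
        hs _ (hb1 _ (G.b2s Y hY F hF))]
  rintro y (⟨X, hX, rfl⟩ | ⟨F, hF, rfl | rfl⟩ | ⟨Y, hY, rfl | rfl⟩) s hs
  · intro E hE
    refine jac (hs E hE) ?_
    obtain ⟨F, hF, rfl | rfl⟩ := hE
    · rw [br01 X (G.skew0 X hX) F]
      exact hs _ (hb1 _ (G.b01 X hX F hF))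
    · have h3 : big0 X * (big1 F)ᴴ - (big1 F)ᴴ * big0 X =
          -(big1 (X.1ᴴ * F - F * X.2ᴴ))ᴴ := by
        have h4 := br01 (X.1ᴴ, X.2ᴴ) (G.skew0 _ (G.star0 X hX)) F
        have h5 := congrArg Matrix.conjTranspose h4
        rw [Matrix.conjTranspose_sub, Matrix.conjTranspose_mul, Matrix.conjTranspose_mul,
          ← big0_star, Matrix.conjTranspose_conjTranspose] at h5
        show _ = -(big1 (((X.1ᴴ, X.2ᴴ) :
          Matrix (Fin p) (Fin p) ℂ × Matrix (Fin q) (Fin q) ℂ).1 * F - F * ((X.1ᴴ, X.2ᴴ) :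
          Matrix (Fin p) (Fin p) ℂ × Matrix (Fin q) (Fin q) ℂ).2))ᴴ
        rw [← h5, neg_sub]
      rw [h3, Matrix.mul_neg, Matrix.neg_mul,
        hs _ (hb1s _ (G.b01 _ (G.star0 X hX) F hF))]
  · rw [hs _ (hb1 F hF), sub_self]
    exact zero_mem _
  · rw [hs _ (hb1s F hF), sub_self]
    exact zero_mem _
  · exact h2 Y hY s hs
  · have h3 := (com_star G).2.2 _ (h2 Y hY _ ((com_star G).2.2 _ hs))
    rw [Matrix.conjTranspose_sub, Matrix.conjTranspose_mul, Matrix.conjTranspose_mul,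
      Matrix.conjTranspose_conjTranspose] at h3
    have h4 := neg_mem h3
    rwa [neg_sub] at h4

theorem nor : S_nor := by
  intro p q G hirr
  have hA : ∀ y ∈ G.alg, ∀ s ∈ com G.ops1, y * s - s * y ∈ com G.ops1 := by
    intro y hy s hs
    induction hy using Submodule.span_induction with
    | mem y hy => exact com_ops G y hy s hs
    | zero =>
      rw [Matrix.mul_zero, Matrix.zero_mul, sub_self]
      exact zero_mem _
    | add y z _ _ hy hz =>
      have h1 : (y + z) * s - s * (y + z) = (y * s - s * y) + (z * s - s * z) := by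
        rw [Matrix.add_mul, Matrix.mul_add]
        abel
      rw [h1]
      exact add_mem hy hz
    | smul c y _ hy =>
      rw [smul_mul_assoc, mul_smul_comm, ← smul_sub]
      exact Submodule.smul_mem _ _ hy
  refine ⟨com_star G, ?_, hA, ?_⟩
  · intro e he hce hpe
    have hcom : e ∈ com G.ops := by
      intro y hy
      have hd := hce _ (hA y (Submodule.subset_span hy) e he)
      set d := y * e - e * y with hdd
      have h1 : d = e * d + d * e := by
        have h2 : e * d + d * e = y * (e * e) - (e * e) * y := by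
          rw [hdd]
          noncomm_ring
        rw [h2, hpe.1]
      have h3 : d = e * d + e * d := by
        rw [hd]
        rw [hd] at h1
        exact h1
      have h4 : e * d = e * d + e * d := by
        have h5 := congrArg (fun z => e * z) h3
        simp only [Matrix.mul_add, ← Matrix.mul_assoc, hpe.1] at h5
        exact h5
      have h6 : e * d = 0 := by
        have := left_eq_add.1 h4
        exact this
      rw [h6, add_zero] at h3
      have h7 : y * e - e * y = 0 := h3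
      exact (sub_eq_zero.1 h7).symm
    obtain ⟨c, hc⟩ := hirr e hcom
    have h1 := hpe.1
    rw [hc, smul_mul_smul_comm, Matrix.one_mul] at h1
    have h2 : (c * c - c) • (1 : Matrix (I p q) (I p q) ℂ) = 0 := by
      rw [sub_smul, h1, sub_self]
    rcases smul_eq_zero.1 h2 with h3 | h3
    · have h4 : c * (c - 1) = 0 := by linear_combination h3
      rcases mul_eq_zero.1 h4 with h5 | h5
      · left
        rw [hc, h5, zero_smul]
      · right
        rw [hc, sub_eq_zero.1 h5, one_smul]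
    · left
      rw [hc, h3, smul_zero]
  · intro s hs E hE
    obtain ⟨h1, h2⟩ := B0_ops G E hE
    have h3 : B0 p q * E = -(Eᵀ * B0 p q) := by rw [h1, neg_neg]
    have h4 : E * B0 p q = -(B0 p q * Eᵀ) := by rw [h2, neg_neg]
    calc B0 p q * sᵀ * B0 p q * E = B0 p q * sᵀ * (B0 p q * E) := by rw [Matrix.mul_assoc]
      _ = -(B0 p q * (sᵀ * Eᵀ) * B0 p q) := by
        rw [h3, Matrix.mul_neg]
        simp only [Matrix.mul_assoc]
      _ = -(B0 p q * (Eᵀ * sᵀ) * B0 p q) := by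
        rw [← Matrix.transpose_mul, ← Matrix.transpose_mul, hs E hE]
      _ = E * (B0 p q * sᵀ * B0 p q) := by
        rw [← Matrix.mul_assoc (B0 p q) Eᵀ, ← Matrix.mul_assoc E, ← Matrix.mul_assoc E, h4]
        simp only [Matrix.mul_assoc, Matrix.neg_mul]

end Pool.Agent.W417.PG
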